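import Pool.Agent.Lib.TG9_h96.Sec

/-!
# TANK G, BC9, row R1: genericity

* `eval_ne_zero_of_indep` : a nonzero polynomial does not vanish at elements algebraically
  independent over a field containing its coefficients;
* `exists_scalar` : polynomials with coefficients in `K ⊇ k`;
* `exists_jac` : the Jacobian determinant of generic forms does not vanish at `f`.
-/

set_option autoImplicit false

namespace Pool.Agent.TG9

open MvPolynomial

universe u v w

section

variable {k : Type u} [Field k] {ι : Type v}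

theorem eval_ne_zero_of_indep {F : Subfield k} {Φ : MvPolynomial ι k} (hΦ : Φ ≠ 0)
    (hF : ∀ μ, Φ.coeff μ ∈ F) {c : ι → k} (hc : AlgebraicIndependent F c) :
    eval c Φ ≠ 0 := by
  have h1 : Φ ∈ Set.range (MvPolynomial.map (algebraMap F k)) := by
    rw [mem_range_map_iff_coeffs_subset]
    intro a ha
    obtain ⟨μ, -, rfl⟩ := mem_coeffs_iff.1 ha
    exact ⟨⟨Φ.coeff μ, hF μ⟩, rfl⟩
  obtain ⟨Φ₀, rfl⟩ := h1
  intro h0
  apply hΦ
  rw [eval_map] at h0
  have h2 : aeval c Φ₀ = 0 := h0
  have h3 : Φ₀ = 0 := (map_eq_zero_iff _ hc).1 h2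
  rw [h3, map_zero]

variable {K : Type w} [Field K] [Algebra k K]

/-- A nonzero polynomial over `K` does not vanish outside of a hypersurface over `k`. -/
theorem exists_scalar {G : MvPolynomial ι K} (hG : G ≠ 0) :
    ∃ Φ : MvPolynomial ι k, Φ ≠ 0 ∧ ∀ c : ι → k, eval c Φ ≠ 0 →
      eval (fun i => algebraMap k K (c i)) G ≠ 0 := by
  classical
  obtain ⟨μ₀, hμ₀⟩ := (MvPolynomial.ne_zero_iff).1 hG
  obtain ⟨l, hl⟩ : ∃ l : K →ₗ[k] k, l (G.coeff μ₀) ≠ 0 := by
    by_contra hcon
    push Not at hcon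
    exact hμ₀ ((Module.forall_dual_apply_eq_zero_iff k _).1 hcon)
  let Φ : MvPolynomial ι k := ∑ μ ∈ G.support, monomial μ (l (G.coeff μ))
  have hcoeff : Φ.coeff μ₀ = l (G.coeff μ₀) := by
    rw [coeff_sum, Finset.sum_eq_single μ₀]
    · rw [coeff_monomial, if_pos rfl]
    · intro μ _ h
      rw [coeff_monomial, if_neg h]
    · intro h
      rw [notMem_support_iff] at h
      exact absurd h hμ₀
  refine ⟨Φ, fun h => hl (by rw [← hcoeff, h, coeff_zero]), fun c hc h0 => hc ?_⟩
  have h1 : eval c Φ = l (eval (fun i => algebraMap k K (c i)) G) := by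
    rw [eval_eq (fun i => algebraMap k K (c i)) G, show Φ = ∑ μ ∈ G.support,
      monomial μ (l (G.coeff μ)) from rfl, eval_sum, map_sum]
    refine Finset.sum_congr rfl fun μ _ => ?_
    rw [eval_monomial, Finsupp.prod, mul_comm]
    have h2 : (G.coeff μ * ∏ i ∈ μ.support, algebraMap k K (c i) ^ μ i) =
        (∏ i ∈ μ.support, c i ^ μ i) • G.coeff μ := by
      rw [Algebra.smul_def, map_prod, mul_comm]
      congr 1
      exact Finset.prod_congr rfl fun i _ => (map_pow _ _ _).symm
    rw [h2, map_smul, smul_eq_mul]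
  rw [h1, h0, map_zero]

end

section Jac

variable {k : Type u} [Field k] {K : Type u} [Field K] [Algebra k K] {n s : ℕ}

/-- A homogeneous polynomial is a form. -/
theorem eq_form [Fintype (Mon n s)] {h : MvPolynomial (Fin (n + 1)) k} (hh : h.IsHomogeneous s) :
    h = form fun m : Mon n s => h.coeff m.1 := by
  ext μ
  by_cases hμ : μ.degree = s
  · exact (coeff_form (fun m : Mon n s => h.coeff m.1) ⟨μ, hμ⟩).symm
  · have h1 : h.coeff μ = 0 := hh.coeff_eq_zero hμ
    have h2 := (form_isHomogeneous fun m : Mon n s => h.coeff m.1).coeff_eq_zero (d := μ) hμ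
    rw [h1, h2]

/-- The partial derivatives of a form at `f`. -/
theorem aeval_pderiv_form [Fintype (Mon n s)] (f : Fin (n + 1) → K) (c : Mon n s → k)
    (a : Fin (n + 1)) : aeval f (pderiv a (form c)) =
      ∑ m : Mon n s, algebraMap k K (c m) * aeval f (pderiv a (monomial m.1 (1 : k))) := by
  rw [form, map_sum, map_sum]
  refine Finset.sum_congr rfl fun m _ => ?_
  have h1 : monomial m.1 (c m) = c m • monomial m.1 (1 : k) := by
    rw [smul_monomial, smul_eq_mul, mul_one]
  rw [h1, Derivation.map_smul, map_smul, Algebra.smul_def]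

/-- **The Jacobian determinant of generic forms.** -/
theorem exists_jac (f : Fin (n + 1) → K) (hf : ∀ i, f i ≠ 0) (hs : (s : k) ≠ 0) :
    ∃ Φ : MvPolynomial (Fin (n + 1) × Mon n s) k, Φ ≠ 0 ∧
      ∀ h : Fin (n + 1) → MvPolynomial (Fin (n + 1)) k, (∀ i, (h i).IsHomogeneous s) →
        eval (fun x => (h x.1).coeff x.2.1) Φ ≠ 0 →
        aeval f (Matrix.det (Matrix.of fun i a => pderiv a (h i))) ≠ 0 := by
  classical
  have := Fintype.ofFinite (Mon n s)
  let M : Matrix (Fin (n + 1)) (Fin (n + 1)) (MvPolynomial (Fin (n + 1) × Mon n s) K) :=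
    Matrix.of fun i a => ∑ m : Mon n s, X (i, m) * C (aeval f (pderiv a (monomial m.1 (1 : k))))
  -- specialisation
  have hM : ∀ h : Fin (n + 1) → MvPolynomial (Fin (n + 1)) k, (∀ i, (h i).IsHomogeneous s) →
      eval (fun x : Fin (n + 1) × Mon n s => algebraMap k K ((h x.1).coeff x.2.1)) M.det =
        aeval f (Matrix.det (Matrix.of fun i a => pderiv a (h i))) := by
    intro h hh
    rw [RingHom.map_det, AlgHom.map_det]
    congr 1
    ext i a
    rw [RingHom.mapMatrix_apply, AlgHom.mapMatrix_apply, Matrix.map_apply, Matrix.map_apply,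
      Matrix.of_apply]
    change eval _ (∑ m : Mon n s, X (i, m) * C (aeval f (pderiv a (monomial m.1 (1 : k))))) = _
    rw [map_sum]
    conv_rhs => rw [eq_form (hh i)]
    rw [aeval_pderiv_form]
    refine Finset.sum_congr rfl fun m _ => ?_
    rw [map_mul, eval_X, eval_C]
  -- the powers `X i ^ s`
  have hs0 : 0 < s := by
    rcases Nat.eq_zero_or_pos s with h | h
    · rw [h, Nat.cast_zero] at hs
      exact absurd rfl hs
    · exact h
  have hdet : M.det ≠ 0 := by
    intro h0
    have h1 := hM (fun i => X i ^ s) fun i => isHomogeneous_X_pow i s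
    rw [h0, map_zero, AlgHom.map_det] at h1
    have h2 : (aeval f : MvPolynomial (Fin (n + 1)) k →ₐ[k] K).mapMatrix
        (Matrix.of fun i a => pderiv a ((X i : MvPolynomial (Fin (n + 1)) k) ^ s)) =
        Matrix.diagonal fun i => (s : K) * f i ^ (s - 1) := by
      ext i a
      rw [AlgHom.mapMatrix_apply, Matrix.map_apply, Matrix.of_apply, Matrix.diagonal_apply,
        pderiv_pow]
      by_cases h : i = a
      · subst h
        rw [if_pos rfl, pderiv_X_self, mul_one, map_mul, map_pow, aeval_X, map_natCast]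
      · rw [if_neg h, pderiv_X_of_ne h, mul_zero, map_zero]
    rw [h2, Matrix.det_diagonal] at h1
    have h3 : (s : K) ≠ 0 := by
      rw [← map_natCast (algebraMap k K)]
      exact (map_ne_zero _).2 hs
    exact Finset.prod_ne_zero_iff.2 (fun i _ => mul_ne_zero h3 (pow_ne_zero _ (hf i))) h1.symm
  obtain ⟨Φ, hΦ, hΦ'⟩ := exists_scalar (k := k) hdet
  refine ⟨Φ, hΦ, fun h hh he => ?_⟩
  rw [← hM h hh]
  exact hΦ' _ he

end Jac

end Pool.Agent.TG9
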