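import Pool.Agent.Lib.TG9.Defs3
import Pool.Agent.Lib.TG9.TSC
import Pool.Agent.Lib.TG9.EB
import Pool.Agent.Lib.TG9_h22.Kr
import Pool.Agent.Lib.TG_h68.Cl

/-!
# TANK G, backup track BC9: ROW X

* `codim_hx` : `hx V W` has codimension at most one in `W`;
* `val_of_not_Tp` : outside of the boundary `L`, `W` and `τ` have value zero;
* `xStmt` : ROW X from GOOD.
-/

set_option autoImplicit false

namespace Pool.Agent.TG9

open Pool.Agent.TG (Ov ZDim IsMin IsModel Bir ch chN LB KB PDiv)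
open Pool.Agent.LU2 (locV)
open Pool.Agent.TG15 (Gt Tp hx smulK pow_mono_of_one_mem div_mem_iff isMin_iff)
open Module Filter

universe u

variable {k K : Type u} [Field k] [Field K] [Algebra k K] {n : ℕ}

theorem hx_le (V : ValuationSubring K) (W : Submodule k K) : hx V W ≤ W := fun _ h => h.1

/-- `hx V W` has codimension at most one. -/
theorem codim_hx {V : ValuationSubring K} (hV : ZDim k V) {W : Submodule k K} (hW : W.FG) :
    finrank k W ≤ finrank k (hx V W) + 1 := by
  have hfd : FiniteDimensional k W := Module.Finite.iff_fg.2 hW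
  have hfd' : FiniteDimensional k (hx V W) := Submodule.finiteDimensional_of_le (hx_le V W)
  rcases eq_or_ne W ⊥ with h0 | h0
  · rw [h0, finrank_bot]
    exact Nat.zero_le _
  obtain ⟨w₀, hw₀⟩ := TG.exists_isMin hV.ov ⟨hW, h0⟩
  have hle : W ≤ hx V W ⊔ Submodule.span k {w₀} := by
    intro x hxW
    obtain ⟨c, hc⟩ := hV.res _ (hw₀.div x hxW)
    have h1 : x - c • w₀ ∈ hx V W := by
      refine ⟨W.sub_mem hxW (W.smul_mem c hw₀.mem), ?_⟩
      rcases eq_or_ne (x - c • w₀) 0 with h | h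
      · exact Or.inl h
      refine Or.inr ⟨w₀, hw₀.mem, ?_⟩
      have h2 : x - c • w₀ = (x / w₀ - algebraMap k K c) * w₀ := by
        rw [sub_mul, div_mul_cancel₀ _ hw₀.ne, Algebra.smul_def]
      rw [h2, map_mul]
      exact mul_lt_of_lt_one_left (zero_lt_iff.2 ((Valuation.ne_zero_iff _).2 hw₀.ne)) hc
    have h3 : x = (x - c • w₀) + c • w₀ := by ring
    rw [h3]
    exact Submodule.add_mem_sup h1 (Submodule.smul_mem _ _ (Submodule.mem_span_singleton_self w₀))
  calc finrank k W ≤ finrank k (hx V W ⊔ Submodule.span k {w₀} : Submodule k K) :=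
        Submodule.finrank_mono hle
    _ ≤ finrank k (hx V W) + finrank k (Submodule.span k {w₀}) :=
        Submodule.finrank_add_le_finrank_add_finrank _ _
    _ ≤ finrank k (hx V W) + 1 := by
        refine Nat.add_le_add_left ?_ _
        exact (finrank_span_le_card ({w₀} : Set K)).trans (by simp)

/-- Outside of the boundary `L`, `W` and `τ` have value zero. -/
theorem val_of_not_Tp {L : Submodule k K} {c : ℕ} {τ : K} {c' : ℕ}
    {q : K [⋀^Fin (n + 1)]→ₗ[k] K} (hD : Dat k n L c τ c' q) {m : ℕ} {W : Submodule k K}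
    (hWm : W ≤ L ^ m) {v : ValuationSubring K} (hv : Ov k v) (hT : ¬ Tp L (c + m) τ W v) :
    (∀ y ∈ L, y ∈ v) ∧ ∃ w ∈ W, v.valuation w = 1 := by
  have hLb : L ≠ ⊥ := by
    intro h
    have h1 := hD.one
    rw [h, Submodule.mem_bot] at h1
    exact one_ne_zero h1
  obtain ⟨l, hl⟩ := TG.exists_isMin hv ⟨hD.fg, hLb⟩
  have hvl : 0 < v.valuation l := zero_lt_iff.2 ((Valuation.ne_zero_iff _).2 hl.ne)
  have hT' : ¬ ∀ w ∈ W, Gt v (τ * w) (L ^ (c + m)) := fun h => hT ⟨hv, h⟩
  push Not at hT'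
  obtain ⟨w, hw, hG⟩ := hT'
  obtain ⟨h0, hmin⟩ := TG15.not_gt_iff.1 hG
  have h1 : v.valuation l ^ (c + m) ≤ v.valuation τ * v.valuation w := by
    have := hmin (l ^ (c + m)) (Submodule.pow_mem_pow L hl.mem _)
    rwa [map_pow, map_mul] at this
  have h2 : v.valuation τ ≤ v.valuation l ^ c := by
    have := (div_mem_iff (pow_ne_zero _ hl.ne)).1 ((hl.pow hv c).div τ hD.τ_mem)
    rwa [map_pow] at this
  have h3 : v.valuation w ≤ v.valuation l ^ m := by
    have := (div_mem_iff (pow_ne_zero _ hl.ne)).1 ((hl.pow hv m).div w (hWm hw))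
    rwa [map_pow] at this
  have h4 : v.valuation l ^ c ≤ v.valuation τ := by
    rw [pow_add] at h1
    have h5 : v.valuation l ^ c * v.valuation l ^ m ≤ v.valuation τ * v.valuation l ^ m :=
      h1.trans (mul_le_mul_right h3 _)
    exact le_of_mul_le_mul_right h5 (pow_pos hvl m)
  obtain ⟨h5, h6⟩ := hD.out v hv fun y hy => by
    have h7 := (div_mem_iff (pow_ne_zero _ hl.ne)).1 ((hl.pow hv c).div y hy)
    rw [map_pow] at h7
    exact h7.trans h4
  have h7 : v.valuation l = 1 := by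
    apply le_antisymm
    · exact (v.valuation_le_one_iff _).2 (h5 l hl.mem)
    · have := (div_mem_iff hl.ne).1 (hl.div 1 hD.one)
      rwa [map_one] at this
  refine ⟨h5, w, hw, le_antisymm ?_ ?_⟩
  · rwa [h7, one_pow] at h3
  · rwa [h7, one_pow, h6, one_mul] at h1

/-- Powers of `L` are in `v` if `L` is. -/
theorem pow_mem_of {L : Submodule k K} {v : ValuationSubring K} (hv : Ov k v)
    (hL : ∀ y ∈ L, y ∈ v) (s : ℕ) : ∀ x ∈ L ^ s, x ∈ v := by
  have h3 : L ≤ (TG.valg hv).toSubmodule := fun y hy => hL y hy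
  have h4 : ∀ s : ℕ, L ^ s ≤ (TG.valg hv).toSubmodule := by
    intro s
    induction s with
    | zero => rw [pow_zero]; exact Submodule.one_le.2 (TG.valg hv).one_mem
    | succ s ih =>
      rw [pow_succ]
      exact Submodule.mul_le.2 fun a ha b hb => (TG.valg hv).mul_mem (ih ha) (h3 hb)
  exact h4 s

theorem bir_mul {L W : Submodule k K} (hL : Bir L) (hW : W ≠ ⊥) : Bir (W * L) := by
  obtain ⟨w, hw, hw0⟩ := Submodule.exists_mem_ne_zero_of_ne_bot hW
  unfold Bir at hL ⊢
  rw [eq_top_iff, ← hL]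
  refine IntermediateField.adjoin_le_iff.2 ?_
  rintro x ⟨f, hf, g, hg, rfl⟩
  refine IntermediateField.subset_adjoin k _ ?_
  refine ⟨w * f, Submodule.mul_mem_mul hw hf, w * g, Submodule.mul_mem_mul hw hg, ?_⟩
  rw [mul_div_mul_left _ _ hw0]

/-- (3.3): the hypothesis of row T. -/
theorem mem_cl_of_peel (hK : IsAlgClosed k) (hfgK : (⊤ : IntermediateField k K).FG)
    (htr : Algebra.trdeg k K = n) (hn : 0 < n) {L : Submodule k K} {c : ℕ} {τ : K} {c' : ℕ}
    {q : K [⋀^Fin (n + 1)]→ₗ[k] K} (hD : Dat k n L c τ c' q) {t m : ℕ} (ht : 0 < t)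
    {W : Submodule k K} (hWm : W ≤ L ^ m) {f : Fin (n + 1) → K}
    (hf : Good n L (m + 1) (c + m) τ t W q f) {V : ValuationSubring K} (hV : ZDim k V) (i : ℕ)
    (g : Fin (n + 1) → K) (hg : ∀ j, g j ∈ (hx V W * L) ^ t) (hqg : q g ≠ 0)
    (b : K) (hb : b ∈ cl (L ^ ((m + 1) * t * i)))
    (hfb : q f * b ∈ cl ((hx V W * L) ^ (t * i))) : q g * b ∈ cl ((hx V W * L) ^ (t * i)) := by
  have hfgm : (L ^ m).FG := hD.fg.pow m
  have hfdm : FiniteDimensional k (L ^ m : Submodule k K) := Module.Finite.iff_fg.2 hfgm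
  have hW'le : hx V W ≤ L ^ m := (hx_le V W).trans hWm
  have hfdW' : FiniteDimensional k (hx V W) := Submodule.finiteDimensional_of_le hW'le
  have hW'fg : (hx V W).FG := Module.Finite.iff_fg.1 hfdW'
  rcases eq_or_ne (hx V W) ⊥ with h0 | h0
  · exfalso
    apply hqg
    have hg0 : g 0 = 0 := by
      have := hg 0
      rw [h0, Submodule.bot_mul, ← Submodule.zero_eq_bot, zero_pow ht.ne',
        Submodule.zero_eq_bot, Submodule.mem_bot] at this
      exact this
    exact q.map_coord_zero 0 hg0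
  refine TG9h22.krStmt k K n hK hfgK htr hn (hx V W * L) (hW'fg.mul hD.fg) (bir_mul hD.bir h0) (t * i)
    (q g * b) fun v hv => ?_
  have hov := hv.1
  rcases hf.peel V hV g hg v hv with h1 | ⟨h1, w, hw, hwmin⟩
  · rcases hfb v hov with h2 | ⟨y, hy, hyv⟩
    · rcases mul_eq_zero.1 h2 with h3 | h3
      · exact absurd h3 hf.ne
      · left
        rw [h3, mul_zero]
    · refine Or.inr ⟨y, hy, le_trans ?_ hyv⟩
      rw [map_mul, map_mul]
      exact mul_le_mul_left h1 _
  · obtain ⟨hLv, w₁, hw₁, hw₁v⟩ := val_of_not_Tp hD hWm hov h1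
    -- `w` has value one
    have hLs := pow_mem_of hov hLv
    have hw1 : v.valuation w = 1 := by
      apply le_antisymm
      · exact (v.valuation_le_one_iff _).2 (hLs m w (hW'le hw))
      · rw [← hw₁v]
        exact (div_mem_iff hwmin.ne).1 (hwmin.div w₁ hw₁)
    -- the element `w ^ (t i)` of `(W' L) ^ (t i)`
    refine Or.inr ⟨w ^ (t * i), ?_, ?_⟩
    · have h3 : w ∈ hx V W * L := by
        have := Submodule.mul_mem_mul hw hD.one
        rwa [mul_one] at this
      exact Submodule.pow_mem_pow _ h3 _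
    · rw [map_pow, hw1, one_pow, map_mul]
      refine mul_le_one' ?_ ?_
      · refine (v.valuation_le_one_iff _).2 ?_
        have h3 : ∀ j, g j ∈ L ^ ((m + 1) * t) := by
          intro j
          rw [pow_mul]
          have h4 : hx V W * L ≤ L ^ (m + 1) := by
            rw [pow_succ]
            exact mul_le_mul' hW'le le_rfl
          exact pow_le_pow_left' h4 t (hg j)
        exact hLs _ _ (hD.q_mem _ g h3)
      · rcases hb v hov with h3 | ⟨y, hy, hyv⟩
        · rw [h3, map_zero]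
          exact zero_le_one
        · exact hyv.trans ((v.valuation_le_one_iff _).2 (hLs _ y hy))

/-- **ROW X**, from GOOD. -/
theorem xStmt (p : ℕ) (hgood : GoodStmt k K n p) : XStmt k K n p := by
  intro hk hchar hp hbig hK htr hn L c τ c' q hD t ht htp
  have ht0 : 0 < t := by omega
  have hcl : ClStmt k K := clStmt k K
  obtain ⟨m, hcm, hc'm, W, hWm, hW0, hW⟩ := choiceStmt hcl n hk hK htr hn L c τ c' q hD t ht0
  obtain ⟨f, hf⟩ := hgood hk hchar hp hbig hK htr hn L c τ c' q hD t ht htp m W hWm hW0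
  refine ⟨m, hcm, hc'm, W, hWm, hW0, f, hf, fun V hV => ?_⟩
  have hfdm : FiniteDimensional k (L ^ m : Submodule k K) := Module.Finite.iff_fg.2 (hD.fg.pow m)
  have hfdW : FiniteDimensional k W := Submodule.finiteDimensional_of_le hWm
  have hWfg : W.FG := Module.Finite.iff_fg.1 hfdW
  have hLb : L ≠ ⊥ := by
    intro h
    have h1 := hD.one
    rw [h, Submodule.mem_bot] at h1
    exact one_ne_zero h1
  refine (hW (hx V W) (hx_le V W) (codim_hx hV hWfg)).mono fun N hN => ?_
  have h1 := ebStmt hcl hk hK L hD.fg hLb (c + m) τ W (hx V W) hWfg (hx_le V W) N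
  have h2 : ∀ i, Ti q L (hx V W * L) (m + 1) t i + (finrank k (cl ((W * L) ^ (t * i))) -
      finrank k (cl ((hx V W * L) ^ (t * i)) ⊔ rm L (W * L) (m + 1) t i (q f) :
        Submodule k K)) ≤ Ti q L (W * L) (m + 1) t i := fun i =>
    tStmt (hcl hk hK).1 n hk hK q L hD.fg hD.one (m + 1) t i W (hx V W) hWfg (hx_le V W) f hf.mem
      hf.ne (hf.max i) fun g hg hqg b hb hfb =>
        mem_cl_of_peel hk hK htr hn hD ht0 hWm hf hV i g hg hqg b hb hfb
  have h3 := Finset.sum_le_sum fun i (_ : i ∈ Finset.range N) => h2 i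
  rw [Finset.sum_add_distrib] at h3 h1
  unfold Phi at hN
  rw [Finset.sum_add_distrib, Finset.sum_add_distrib] at hN
  unfold XAt
  rw [Finset.sum_add_distrib]
  omega

end Pool.Agent.TG9
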