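import Pool.Agent.Lib.TG9.Defs4
import Pool.Agent.Lib.TG9.BX
import Pool.Agent.Lib.TG9_h22.FinH
import Pool.Agent.Lib.TG9_h22.Trd
import Pool.Agent.Lib.TG9_h80.Sep
import Pool.Agent.Lib.TG9_h63.Gen
import Pool.Agent.Lib.TG9_h63.X
import Pool.Agent.Lib.LU2_h15.AbhA

/-!
# TANK G, BC9: row R1, existence of the setup
-/

set_option autoImplicit false

namespace Pool.Agent.TG9

open Pool.Agent.TG (Ov ZDim IsMin IsModel Bir ch chN LB KB PB PP PDiv RV stab LDeg ProjP)
open Pool.Agent.LU2 (locV IndRes IndVal indVal_one abhyankar)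
open Pool.Agent.TG15 (Gt Tp hx smulK)
open Module Filter MvPolynomial

universe u

section Res

variable {k K : Type u} [Field k] [Field K] [Algebra k K] {n : ℕ}

/-- Lifts of algebraically independent residues. -/
theorem indRes_of_residue {v : ValuationSubring K} (hv : Ov k v) {q : ℕ}
    {x : Fin q → IsLocalRing.ResidueField v}
    (hx : @AlgebraicIndependent (Fin q) k (IsLocalRing.ResidueField v) x _ _ (resAlg hv))
    {z : Fin q → v} (hz : ∀ i, IsLocalRing.residue v (z i) = x i) :
    IndRes k v fun i => (z i : K) := by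
  letI : Algebra k (IsLocalRing.ResidueField v) := resAlg hv
  refine ⟨fun i => (z i).2, fun F hF => ?_⟩
  letI : Algebra k v := ((algebraMap k K).codRestrict v.toSubring hv).toAlgebra
  have h1 : ∀ F : MvPolynomial (Fin q) k, ((aeval z F : v) : K) = aeval (fun i => (z i : K)) F := by
    intro F
    induction F using MvPolynomial.induction_on with
    | C a => rw [aeval_C, aeval_C]; rfl
    | add a b ha hb => rw [map_add, map_add, ← ha, ← hb]; rfl
    | mul_X a i ha => rw [map_mul, map_mul, aeval_X, aeval_X, ← ha]; rfl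
  have h2 : ∀ F : MvPolynomial (Fin q) k, IsLocalRing.residue v (aeval z F) = aeval x F := by
    intro F
    induction F using MvPolynomial.induction_on with
    | C a => rw [aeval_C, aeval_C]; rfl
    | add a b ha hb => rw [map_add, map_add, ha, hb, map_add]
    | mul_X a i ha => rw [map_mul, map_mul, aeval_X, ha, hz i, map_mul, aeval_X]
  have h3 : aeval x F = 0 := by
    rw [← h2, IsLocalRing.residue_eq_zero_iff]
    rw [← h1] at hF
    exact (ValuationSubring.valuation_lt_one_iff v _).2 hF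
  exact (map_eq_zero_iff _ hx).1 h3

/-- The residue field of a nontrivial valuation ring. -/
theorem card_le_of_residue {v : ValuationSubring K} (hv : Ov k v) (hne : v ≠ ⊤)
    (htr : Algebra.trdeg k K = n) {q : ℕ} {x : Fin q → IsLocalRing.ResidueField v}
    (hx : @AlgebraicIndependent (Fin q) k (IsLocalRing.ResidueField v) x _ _ (resAlg hv)) :
    q + 1 ≤ n := by
  choose z hz using fun i => IsLocalRing.residue_surjective (x i)
  have h1 := indRes_of_residue hv hx hz
  obtain ⟨y, hy⟩ := indVal_one hne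
  have h2 := (abhyankar hv hy h1).trans htr.le
  have h3 : 1 + q ≤ n := by exact_mod_cast h2
  omega

end Res

/-- A field with the values of `f`. -/
structure Bun (k : Type u) [Field k] (n : ℕ) where
  E : Type u
  fld : Field E
  alg : Algebra k E
  d : ℕ
  y : Fin (n + 1) → E

attribute [instance] Bun.fld Bun.alg

/-- The transcendence degree of the field of ratios. -/
theorem exists_trdeg {k E : Type u} [Field k] [Field E] [Algebra k E] {n : ℕ} (y : Fin (n + 1) → E)
    {m : ℕ} (h : ∀ q : ℕ, ∀ x : Fin q → E, AlgebraicIndependent k x → q ≤ m) :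
    ∃ d ≤ m, Algebra.trdeg k (IntermediateField.adjoin k {x : E | ∃ a b, x = y a / y b}) = d := by
  have h1 := TG9h22.trdeg_adjoin_le (κ := k) {x : E | ∃ a b, x = y a / y b} m
    fun q x _ hx => h q x hx
  obtain ⟨d, hd⟩ := Cardinal.lt_aleph0.1 (h1.trans_lt Cardinal.natCast_lt_aleph0)
  rw [hd] at h1
  exact ⟨d, by exact_mod_cast h1, hd⟩

/-- Finitely many values of `n` have `2 n + 3 < d9 n`. -/
theorem le_d9 {n : ℕ} (hn : 0 < n) : 2 * n + 3 ≤ d9 n := by
  unfold d9 C9
  have h1 : 2 * n + 3 ≤ (2 * n + 3) ^ n := Nat.le_self_pow hn.ne' _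
  have h2 : 1 ≤ n.factorial := Nat.factorial_pos n
  have h3 : 1 ≤ ((2 * n + 3) * (n + 1)) ^ n := Nat.one_le_pow _ _ (by positivity)
  calc 2 * n + 3 ≤ (2 * n + 3) ^ n := h1
    _ ≤ (n + 6) * (2 * n + 3) ^ n := Nat.le_mul_of_pos_left _ (by omega)
    _ ≤ (n + 6) * (2 * n + 3) ^ n * n.factorial := Nat.le_mul_of_pos_right _ h2
    _ ≤ _ := Nat.le_mul_of_pos_right _ h3

/-- Ratios of forms are in the field of ratios. -/
theorem ratio_mem {k E : Type u} [Field k] [Field E] [Algebra k E] {n s : ℕ} {y : Fin (n + 1) → E}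
    {g h : MvPolynomial (Fin (n + 1)) k} (hg : g.IsHomogeneous s) (hh : h.IsHomogeneous s)
    (hy : ∃ a, y a ≠ 0) :
    aeval y g / aeval y h ∈ IntermediateField.adjoin k {x : E | ∃ a b, x = y a / y b} := by
  obtain ⟨b, hb⟩ := hy
  set F := IntermediateField.adjoin k {x : E | ∃ a b, x = y a / y b} with hF
  have h1 : ∀ a, y a / y b ∈ F := fun a => IntermediateField.subset_adjoin _ _ ⟨a, b, rfl⟩
  have h2 : ∀ g : MvPolynomial (Fin (n + 1)) k, aeval (fun a => y a / y b) g ∈ F := by
    intro g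
    have h3 : aeval (fun a => y a / y b) g = ((aeval (fun a => (⟨y a / y b, h1 a⟩ : F)) g : F) : E) := by
      have h4 : (F.val.comp (aeval fun a => (⟨y a / y b, h1 a⟩ : F))) =
          aeval fun a => y a / y b := by
        apply MvPolynomial.algHom_ext
        intro a
        simp
      exact (DFunLike.congr_fun h4 g).symm
    rw [h3]
    exact Subtype.property _
  have h3 : ∀ g : MvPolynomial (Fin (n + 1)) k, g.IsHomogeneous s →
      aeval y g = y b ^ s * aeval (fun a => y a / y b) g := by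
    intro g hg
    have := Fintype.ofFinite (Mon n s)
    rw [eq_form hg, aeval_form, aeval_form, Finset.mul_sum]
    refine Finset.sum_congr rfl fun m _ => ?_
    rw [mv_div, mul_smul_comm, mul_div_cancel₀ _ (pow_ne_zero _ hb)]
  rw [h3 g hg, h3 h hh, mul_div_mul_left _ _ (pow_ne_zero _ hb)]
  exact F.div_mem (h2 g) (h2 h)

theorem rs_one {k K : Type u} [Field k] [Field K] [Algebra k K] (v : ValuationSubring K) :
    rs v (1 : K) = 1 := by
  unfold rs
  rw [dif_pos v.one_mem]
  exact map_one (IsLocalRing.residue v)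

/-- The case of the residue field `k`. -/
theorem secAt_zero {k E : Type u} [Field k] [Field E] [Algebra k E] [IsAlgClosed k] {n s : ℕ}
    (htr : ∀ r : ℕ, ∀ x : Fin r → E, AlgebraicIndependent k x → r ≤ 0)
    (h : Fin (n + 1) → MvPolynomial (Fin (n + 1)) k) (y : Fin (n + 1) → E)
    (h0 : aeval y (h 0) ≠ 0) {B : ValuationSubring E} (hB : ZDim k B) : SecAt s 0 h y B := by
  have halg : ∀ x : E, ∃ c : k, algebraMap k E c = x := by
    intro x
    have h4 : IsAlgebraic k x := by
      by_contra h4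
      have h5 : AlgebraicIndependent k fun _ : Fin 1 => x := by
        rw [algebraicIndependent_unique_type_iff]
        exact h4
      have h6 := htr 1 _ h5
      omega
    have h5 : Algebra.IsAlgebraic k (IntermediateField.adjoin k {x}) :=
      IntermediateField.isAlgebraic_adjoin_simple h4.isIntegral
    have h6 := IntermediateField.eq_bot_of_isAlgClosed_of_isAlgebraic
      (IntermediateField.adjoin k {x})
    have h7 : x ∈ IntermediateField.adjoin k {x} := IntermediateField.mem_adjoin_simple_self k x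
    rw [h6] at h7
    exact IntermediateField.mem_bot.1 h7
  have hval : ∀ x : E, x ≠ 0 → B.valuation x = 1 := by
    intro x hx
    obtain ⟨c, rfl⟩ := halg x
    apply le_antisymm
    · exact (B.valuation_le_one_iff _).2 (hB.ov c)
    · have h1 : B.valuation (algebraMap k E c)⁻¹ ≤ 1 := by
        rw [← map_inv₀]
        exact (B.valuation_le_one_iff _).2 (hB.ov c⁻¹)
      rw [map_inv₀] at h1
      exact (inv_le_one₀ (zero_lt_iff.2 ((Valuation.ne_zero_iff _).2 hx))).1 h1
  intro a₀ _ ha₀
  refine ⟨0, le_rfl, ?_, fun a β hlt => ⟨0, 1, le_rfl, ?_, ?_⟩⟩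
  · rw [hval _ h0, hval _ ha₀, one_pow]
  · rw [div_self h0, map_one, sub_self, map_zero]
    exact zero_lt_one
  · have h1 : y a / y a₀ - algebraMap k E β = 0 := by
      by_contra h1
      rw [hval _ h1] at hlt
      exact lt_irrefl _ hlt
    rw [h1, map_zero, zero_add, pow_one]
    exact zero_le

theorem sep_part {k E : Type u} [Field k] [Field E] [Algebra k E] {n : ℕ}
    (h : Fin (n + 1) → MvPolynomial (Fin (n + 1)) k) (y : Fin (n + 1) → E) {d m : ℕ} (hd : d ≤ n)
    (hm : m ≤ n) (hdm : d = m) {x : E}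
    (h5 : IsSeparable (IntermediateField.adjoin k (Set.range fun i : Fin d =>
            MvPolynomial.aeval y (h (Fin.castLE (Nat.succ_le_succ hd) i.succ)) /
              MvPolynomial.aeval y (h 0))) x) :
    IsSeparable (IntermediateField.adjoin k (Set.range fun i : Fin m =>
            MvPolynomial.aeval y (h ⟨i + 1, by omega⟩) /
              MvPolynomial.aeval y (h 0))) x := by
  subst hdm
  exact h5

/-- **ROW R1**, from DAT and GOOD. -/
theorem setupStmt {k K : Type u} [Field k] [Field K] [Algebra k K] {n p : ℕ}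
    (hdat : DatStmt k K n) (hgood : GoodStmt k K n p) : SetupStmt k K n p := by
  classical
  intro hk hchar hp hbig hd9 hK htr hn A₀ hA1 hA2 hA3
  obtain ⟨L, c, τ, c', q, hD, hadj, hder, hsep, hjac⟩ := hdat hk hK htr hn A₀ hA1 hA2 hA3
  have htp : 2 * n + 3 < p := (le_d9 hn).trans_lt hd9
  obtain ⟨m, hcm, hc'm, W, hWm, hW0, f, hf, hX⟩ :=
    xStmt p hgood hk hchar hp hbig hK htr hn L c τ c' q hD (2 * n + 3) le_rfl htp
  have hf0 : ∀ j, f j ≠ 0 := fun j hj => hf.ne (q.map_coord_zero j hj)
  have hfdm : FiniteDimensional k (L ^ m : Submodule k K) := Module.Finite.iff_fg.2 (hD.fg.pow m)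
  have hfdW : FiniteDimensional k W := Submodule.finiteDimensional_of_le hWm
  have hWfg : W.FG := Module.Finite.iff_fg.1 hfdW
  -- the bad set
  obtain ⟨X, hX0, hXb⟩ := bxStmt k K n L c τ c' m (2 * n + 3) q W f hD hWm hW0 hf.mem hf.ne
  have hfin := TG9h22.finhStmt k K n hk hK htr hn (W * L) (hWfg.mul hD.fg)
    (bir_mul hD.bir hW0) X hX0
  have hBad : {v | Dv n (W * L) v ∧ BadF L (c + m) τ W q f v}.Finite := by
    refine hfin.subset ?_
    rintro v ⟨h1, h2⟩
    refine ⟨h1, ?_⟩
    by_contra hcon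
    push Not at hcon
    exact (hXb v h1.1 hcon).1 h2
  obtain ⟨N, vs, -, hvs⟩ := hBad.fin_param
  have hvs' : ∀ i, Dv n (W * L) (vs i) ∧ BadF L (c + m) τ W q f (vs i) := fun i => by
    have h1 : vs i ∈ Set.range vs := ⟨i, rfl⟩
    rw [hvs] at h1
    exact h1
  choose a₁ ha₁ using fun i => hf.bpf _ (hvs' i).1.1
  -- the fields
  let b₀ : Bun k n := { E := K, fld := inferInstance, alg := inferInstance, d := n, y := f }
  let b₁ : Fin N → Bun k n := fun i =>
    { E := IsLocalRing.ResidueField (vs i), fld := inferInstance, alg := resAlg (hvs' i).1.1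
      d := max 1 (n - 1), y := fun a => rs (vs i) (f a / f (a₁ i)) }
  let bun : Option (Fin N) → Bun k n := fun j => j.elim b₀ b₁
  have hbd : ∀ j, (bun j).d ≤ n := by
    intro j
    rcases j with _ | i
    · exact le_rfl
    · exact max_le hn (Nat.sub_le _ _)
  have hbd0 : ∀ j, 0 < (bun j).d := by
    intro j
    rcases j with _ | i
    · exact hn
    · exact lt_max_of_lt_left Nat.one_pos
  have hby : ∀ j, ∃ a, (bun j).y a ≠ 0 := by
    intro j
    rcases j with _ | i
    · exact ⟨0, hf0 0⟩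
    · refine ⟨a₁ i, ?_⟩
      change rs (vs i) (f (a₁ i) / f (a₁ i)) ≠ 0
      rw [div_self (hf0 _), rs_one (k := k)]
      exact one_ne_zero
  -- transcendence degrees
  have hind : ∀ j, ∀ r : ℕ, ∀ x : Fin r → (bun j).E, AlgebraicIndependent k x →
      r ≤ (bun j).d ∧ (j ≠ none → r ≤ n - 1) := by
    intro j r x hx
    rcases j with _ | i
    · refine ⟨?_, fun h => absurd rfl h⟩
      have h1 := hx.lift_cardinalMk_le_trdeg
      have h2 : Algebra.trdeg k (bun none).E = n := htr
      rw [h2, Cardinal.mk_fin] at h1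
      have h3 : r ≤ n := by simpa using h1
      exact h3
    · have h1 : r + 1 ≤ n := card_le_of_residue (hvs' i).1.1 (hvs' i).1.2.1 htr hx
      have h2 : (bun (some i)).d = max 1 (n - 1) := rfl
      rw [h2]
      refine ⟨?_, fun _ => by omega⟩
      omega
  choose d' hd' htr' using fun j => exists_trdeg (bun j).y fun r x hx => (hind j r x hx).1
  have htrle : ∀ j, Algebra.trdeg k (IntermediateField.adjoin k
      {x : (bun j).E | ∃ a b, x = (bun j).y a / (bun j).y b}) ≤ ((bun j).d : Cardinal.{u}) := by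
    intro j
    rw [htr' j]
    exact_mod_cast hd' j
  -- the conditions
  have hs0 : ((n + 1 : ℕ) : k) ≠ 0 := by
    intro h
    have h1 := (CharP.cast_eq_zero_iff k p (n + 1)).1 h
    have h2 := Nat.le_of_dvd (Nat.succ_pos n) h1
    omega
  choose Φ hΦ0 hΦ using fun j => TG9h80.sepStmt k (bun j).E hk n (d' j) (n + 1)
    ((hd' j).trans (hbd j)) (Nat.succ_pos n) (bun j).y (hby j) (htr' j)
  obtain ⟨ΦJ, hΦJ0, hΦJ⟩ := exists_jac (k := k) (s := n + 1) f hf0 hs0
  let S₀ : Set k := (⋃ j, ((Φ j).coeffs : Set k)) ∪ (ΦJ.coeffs : Set k)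
  have hS₀ : S₀.Countable :=
    (Set.countable_iUnion fun j => (Φ j).coeffs.countable_toSet).union ΦJ.coeffs.countable_toSet
  obtain ⟨h, hhom, ⟨cc, hcc, hcoef⟩, hsec⟩ := secStmt k n (n + 1) hk hbig le_rfl
    (Option (Fin N)) (fun j => (bun j).E) (fun j => (bun j).d) hbd hbd0 (fun j => (bun j).y) hby
    htrle S₀ hS₀
  have hcoef' : (fun x : Fin (n + 1) × {μ : Fin (n + 1) →₀ ℕ // μ.degree = n + 1} =>
      (h x.1).coeff x.2.1) = cc := by
    funext x
    exact hcoef x.1 x.2
  have hev : ∀ Ψ : MvPolynomial (Fin (n + 1) × {μ : Fin (n + 1) →₀ ℕ // μ.degree = n + 1}) k,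
      Ψ ≠ 0 → (∀ μ, Ψ.coeff μ ≠ 0 → Ψ.coeff μ ∈ S₀) →
      eval (fun x => (h x.1).coeff x.2.1) Ψ ≠ 0 := by
    intro Ψ hΨ hΨS
    rw [hcoef']
    refine eval_ne_zero_of_indep hΨ (fun μ => ?_) hcc
    by_cases h0 : Ψ.coeff μ = 0
    · rw [h0]; exact zero_mem _
    · exact Subfield.subset_closure (hΨS μ h0)
  have hmem : ∀ (Ψ : MvPolynomial (Fin (n + 1) × {μ : Fin (n + 1) →₀ ℕ // μ.degree = n + 1}) k)
      (μ), Ψ.coeff μ ≠ 0 → Ψ.coeff μ ∈ (Ψ.coeffs : Set k) := fun Ψ μ hμ =>
    mem_coeffs_iff.2 ⟨μ, mem_support_iff.2 hμ, rfl⟩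
  have hJ : aeval f (Matrix.det (Matrix.of fun i a => pderiv a (h i))) ≠ 0 :=
    hΦJ h hhom (hev ΦJ hΦJ0 fun μ hμ => Or.inr (hmem ΦJ μ hμ))
  have hS : ∀ j, _ := fun j => hΦ j h hhom
    (hev (Φ j) (hΦ0 j) fun μ hμ => Or.inl (Set.mem_iUnion.2 ⟨j, hmem (Φ j) μ hμ⟩))
  refine ⟨L, c, τ, c', m, q, W, f, h, ?_⟩
  refine
    { closed := hk, char := hchar, prime := hp, lt := hd9, fg := hK, trdeg := htr, pos := hn
      A_fg := hA1, A_int := hA2, A_frac := hA3, dat := hD, adj := hadj, der := hder, sep := hsep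
      jac := hjac, c_le := hcm, c'_le := hc'm, W_le := hWm, W_ne := hW0, good := hf, x := hX
      hom := hhom, h_ne := (hS none).1, jac_ne := hJ
      secK := fun V hV a₀ h1 h2 => hsec none V hV a₀ h1 h2
      secB := ?_ }
  intro v hv hvb
  obtain ⟨i, rfl⟩ : ∃ i, vs i = v := by
    have h1 : v ∈ Set.range vs := by rw [hvs]; exact ⟨hv, hvb⟩
    exact h1
  let algI : Algebra k (IsLocalRing.ResidueField (vs i)) := resAlg hv.1
  refine ⟨a₁ i, ha₁ i, fun B hB a₀ h1 h2 => ?_, fun hai => ?_⟩
  · by_cases hn1 : n = 1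
    · have h3 : ∀ d, d = 0 → SecAt (n + 1) d h (fun a => rs (vs i) (f a / f (a₁ i))) B := by
        rintro _ rfl
        exact secAt_zero (fun r x hx => (hind (some i) r x hx).2 (by simp) |>.trans (by omega)) h _
          (hS (some i)).1 hB
      exact h3 (n - 1) (by omega) a₀ h1 h2
    · have h3 := hsec (some i) B hB a₀ h1 h2
      have h4 : (bun (some i)).d = n - 1 := by
        have : (bun (some i)).d = max 1 (n - 1) := rfl
        omega
      rw [h4] at h3
      exact h3
  · obtain ⟨h3, h4, h5⟩ := hS (some i)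
    have h6 : d' (some i) ≤ n - 1 := (hind (some i) _ _ h4).2 (by simp)
    have h7 : n - 1 ≤ d' (some i) := by
      have h8 := TG9h22.card_le_of_algInd (htr' (some i)).le hai fun j =>
        ratio_mem (hhom _) (hhom 0) (hby (some i))
      rwa [Fintype.card_fin] at h8
    have h8 : d' (some i) = n - 1 := le_antisymm h6 h7
    exact sep_part h (bun (some i)).y ((hd' (some i)).trans (hbd (some i))) (Nat.sub_le _ _) h8
      (h5 (aeval (bun (some i)).y (h (Fin.last n)) / aeval (bun (some i)).y (h 0))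
        (ratio_mem (hhom _) (hhom 0) (hby (some i))))

end Pool.Agent.TG9
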