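import Pool.Agent.Lib.TG9.Defs4
import Pool.Agent.Lib.TG_h68.PdLoc
import Pool.Agent.Lib.TG_h68.Cl
import Pool.Agent.Lib.TG_h3.A0

/-!
# TANK G, backup track BC9: row D3 (helper63)

Every element of the valuation ring `v` of a prime divisor of the model `H` (or of `K`) is a
quotient of elements of `cl (H ^ m)`, the denominator being minimal at `v`.
-/

set_option autoImplicit false

namespace Pool.Agent.TG9

open Pool.Agent.TG (Ov ZDim IsMin IsModel Bir Fin' ch chN ncl)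
open Pool.Agent.LU2 (locV le_locV locV_inv)

universe u

variable {k K : Type u} [Field k] [Field K] [Algebra k K] {H : Submodule k K} {g : K}

theorem mul_pow_mem_of_ch (hg : g ∈ H) (hg0 : g ≠ 0) {a : K} (ha : a ∈ ch H g) :
    ∃ m₀ : ℕ, ∀ m ≥ m₀, a * g ^ m ∈ H ^ m := by
  have hgm : ∀ m : ℕ, g ^ m ∈ H ^ m := fun m => Submodule.pow_mem_pow _ hg m
  refine Algebra.adjoin_induction (R := k) (s := (fun x => x / g) '' (H : Set K))
    (p := fun a _ => ∃ m₀ : ℕ, ∀ m ≥ m₀, a * g ^ m ∈ H ^ m) ?_ ?_ ?_ ?_ ha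
  · rintro _ ⟨x, hx, rfl⟩
    refine ⟨1, fun m hm => ?_⟩
    obtain ⟨m, rfl⟩ : ∃ m', m = m' + 1 := ⟨m - 1, by omega⟩
    have h1 : x / g * g ^ (m + 1) = g ^ m * x := by
      rw [pow_succ, mul_comm (x / g), mul_assoc, mul_div_cancel₀ _ hg0]
    show x / g * g ^ (m + 1) ∈ H ^ (m + 1)
    rw [h1, pow_succ H]
    exact Submodule.mul_mem_mul (hgm m) hx
  · refine fun c => ⟨0, fun m _ => ?_⟩
    rw [← Algebra.smul_def]
    exact Submodule.smul_mem _ c (hgm m)
  · rintro x y _ _ ⟨r, hr⟩ ⟨s, hs⟩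
    refine ⟨max r s, fun m hm => ?_⟩
    rw [add_mul]
    exact add_mem (hr m (le_trans (le_max_left _ _) hm)) (hs m (le_trans (le_max_right _ _) hm))
  · rintro x y _ _ ⟨r, hr⟩ ⟨s, hs⟩
    refine ⟨r + s, fun m hm => ?_⟩
    obtain ⟨e, rfl⟩ := Nat.exists_eq_add_of_le hm
    have h1 : x * y * g ^ (r + s + e) = (x * g ^ r) * (y * g ^ (s + e)) := by
      rw [pow_add, pow_add, pow_add]; ring
    rw [h1, add_assoc, pow_add H]
    exact Submodule.mul_mem_mul (hr r le_rfl) (hs _ (Nat.le_add_right _ _))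

theorem mul_pow_mem_cl (hH : IsModel H) (hg : g ∈ H) (hg0 : g ≠ 0) {a : K} (ha : a ∈ chN H g) :
    ∃ m₀ : ℕ, ∀ m ≥ m₀, a * g ^ m ∈ cl (H ^ m) := by
  classical
  obtain ⟨p, hp, hc, h0⟩ := TG.exists_poly_of_mem_ncl ha
  choose F hF using fun i => mul_pow_mem_of_ch hg hg0 (hc i)
  refine ⟨(Finset.range (p.natDegree + 1)).sup F, fun m hm => ?_⟩
  intro V hV
  obtain ⟨h, hh⟩ := TG.exists_isMin hV hH
  refine (ge_iff (hh.pow hV m)).2 ?_
  have hh0 : h ≠ 0 := hh.ne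
  have hroot : (p.scaleRoots ((g / h) ^ m)).eval ((g / h) ^ m * a) = 0 := by
    have h1 := Polynomial.scaleRoots_aeval_eq_zero (p := p) (a := a) (r := (g / h) ^ m) (by
      rw [Polynomial.coe_aeval_eq_eval]; exact h0)
    rwa [Polynomial.coe_aeval_eq_eval, Algebra.algebraMap_self, RingHom.id_apply] at h1
  have hmon : (p.scaleRoots ((g / h) ^ m)).Monic := (Polynomial.monic_scaleRoots_iff _).2 hp
  have hx : (g / h) ^ m * a = a * g ^ m / h ^ m := by
    rw [div_pow]; ring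
  rw [← hx]
  refine TG.ncl_mem (R := TG.valg hV) (fun a ha => ha) _
    (TG.mem_ncl_of_root _ hmon (fun i => TG.le_ncl _ ?_) hroot)
  rw [Polynomial.coeff_scaleRoots]
  show p.coeff i * ((g / h) ^ m) ^ (p.natDegree - i) ∈ V
  rcases le_or_gt p.natDegree i with hi | hi
  · rw [Nat.sub_eq_zero_of_le hi, pow_zero, mul_one]
    rcases hi.eq_or_lt with hi | hi
    · rw [← hi, hp.coeff_natDegree]
      exact V.one_mem
    · rw [Polynomial.coeff_eq_zero_of_natDegree_lt hi]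
      exact V.zero_mem
  · have h1 : F i ≤ m * (p.natDegree - i) := by
      have h2 : F i ≤ m :=
        (Finset.le_sup (f := F) (Finset.mem_range.2 (by omega : i < p.natDegree + 1))).trans hm
      exact h2.trans (Nat.le_mul_of_pos_right _ (by omega))
    have h2 := (hh.pow hV (m * (p.natDegree - i))).div _ (hF i _ h1)
    rw [← pow_mul, div_pow, ← mul_div_assoc]
    exact h2

theorem exists_frac_chN' (hfin : Fin' H) (hf0 : g ≠ 0) (x : K) :
    ∃ a ∈ chN H g, ∃ b ∈ chN H g, b ≠ 0 ∧ x = a / b := by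
  obtain ⟨y, hy0, hy⟩ := (TG.Fin'.isAlgebraic hfin hf0 x).exists_integral_multiple
  have hy0' : (y : K) ≠ 0 := fun h => hy0 (Subtype.ext h)
  refine ⟨(y : K) * x, hy, y, TG.le_ncl _ y.2, hy0', ?_⟩
  field_simp

/-- **ROW D3.** -/
theorem richStmt (k K : Type u) [Field k] [Field K] [Algebra k K] (n : ℕ) : RichStmt k K n := by
  intro hk hK htr hn H hH hbir v hv g hg z hz
  have hgm : g ∈ H := hg.mem
  have hg0 : g ≠ 0 := hg.ne
  have hHm : IsModel H := ⟨hH, (Submodule.ne_bot_iff H).2 ⟨g, hgm, hg0⟩⟩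
  have hfin : Fin' H := Bir.fin hbir
  have key : z ∈ locV v (chN H g) := by
    rcases hv with rfl | hv
    · obtain ⟨a, ha, b, hb, hb0, e⟩ := exists_frac_chN' hfin hg0 z
      refine ⟨a, ha, b, hb, ?_, e⟩
      refine le_antisymm ((ValuationSubring.valuation_le_one_iff _ _).2 trivial) ?_
      have h1 : (⊤ : ValuationSubring K).valuation b⁻¹ ≤ 1 :=
        (ValuationSubring.valuation_le_one_iff _ _).2 trivial
      rw [map_inv₀] at h1
      exact (inv_le_one₀ (zero_lt_iff.2 ((Valuation.ne_zero_iff _).2 hb0))).1 h1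
    · have hv0 : Ov k v := hv.1
      obtain ⟨-, hvt, g', hg', w, hw, hwP⟩ := hv
      refine locStmt k K n hk htr hn (chN H g)
        (TGD.ncl_fg hK (TG.ch_fg hH) fun a => TG.Fin'.isAlgebraic hfin hg0 a) (fun x hx => ?_)
        (fun x => ?_) v hvt (TG.ncl_mem (TG.ch_le hv0 hg)) ⟨fun i => w i / g', fun i => ?_, hwP⟩
        z hz
      · have h1 : x ∈ ncl (ncl (ch H g)) := hx
        rwa [TG.ncl_ncl] at h1
      · obtain ⟨a, ha, b, hb, hb0, e⟩ := exists_frac_chN' hfin hg0 x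
        exact ⟨a, ha, b, hb, hb0, e⟩
      · refine ⟨w i / g, TG.le_ncl _ (TG.div_mem_ch (hw i)), g' / g,
          TG.le_ncl _ (TG.div_mem_ch hg'.mem), TG.val_div_eq_one hg hg', ?_⟩
        rw [div_div_div_cancel_right₀ hg0]
  obtain ⟨a, ha, s, hs, hs1, e⟩ := key
  obtain ⟨m₁, h1⟩ := mul_pow_mem_cl hHm hgm hg0 ha
  obtain ⟨m₂, h2⟩ := mul_pow_mem_cl hHm hgm hg0 hs
  refine ⟨max m₁ m₂, a * g ^ (max m₁ m₂), h1 _ (le_max_left _ _), s * g ^ (max m₁ m₂),
    h2 _ (le_max_right _ _), ?_, ?_⟩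
  · rw [map_mul, hs1, one_mul]
  · rw [mul_div_mul_right _ _ (pow_ne_zero _ hg0)]
    exact e

end Pool.Agent.TG9
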